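import Pool.Agent.Helper4.UB.Final

set_option autoImplicit false

namespace Pool.Agent.Results.MP_730771_lc.ImprovedUpperBound

open Pool.Agent.Helper2.OC
open scoped ENNReal

/-- **Some randomised online algorithm colours every bipartite graph with `n` vertices with at most
`1.027 log₂ n + O(1)` colours in expectation.**

`f n` is the infimum, over all randomised online algorithms (probability distributions on
deterministic online algorithms for bipartite graphs with vertex set `Fin n`, revealed in the order
`0, 1, …`), of the largest expected number of distinct colours on a bipartite graph. -/
theorem result : ∃ C : ℝ, ∀ n : ℕ, 1 ≤ n →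
    f n ≤ ENNReal.ofReal (1.027 * Real.logb 2 n + C) :=
  Pool.Agent.Helper4.UB.upper_bound

end Pool.Agent.Results.MP_730771_lc.ImprovedUpperBound
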